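import Mathlib

/-!
# MP_dfaa7a_lc: identities of games over determined models

The identities between game expressions valid over all determined models are exactly those valid
over all models.

Idea: given a model on `S`, add a new state `n` (a draw), and let a player force a set `Z` of
old states iff it could do so before; the forcing of sets containing `n` is then dictated by
determinacy, and `n` is a sink.
-/

set_option autoImplicit false

universe u

namespace Pool.Agent.Results.MP_dfaa7a_lc.DeterminedIdentities

/-- Game expressions over the game variables `0, 1, 2, ...`. -/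
inductive Game : Type where
  | var (g : ℕ) : Game
  | idle : Game
  | choice (G H : Game) : Game
  | seq (G H : Game) : Game
  | dual (G : Game) : Game

/-- The two players. -/
inductive Player : Type where
  | E : Player
  | A : Player

/-- The other player. -/
def Player.other : Player → Player
  | .E => .A
  | .A => .E

/-- Models: a set of states `S` with forcing relations `ρ i g s Y` which are monotone and
consistent. -/
structure Model (S : Type u) where
  ρ : Player → ℕ → S → Set S → Prop
  mono : ∀ i g s (X Y : Set S), X ⊆ Y → ρ i g s X → ρ i g s Y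
  consistent : ∀ g s (Y Z : Set S), ρ .E g s Y → ρ .A g s Z → (Y ∩ Z).Nonempty

/-- The forcing relations of game expressions. -/
def Model.force {S : Type u} (M : Model S) : Game → Player → S → Set S → Prop
  | .var g, i => M.ρ i g
  | .idle, _ => fun s Y => s ∈ Y
  | .choice G H, .E => fun s Y => M.force G .E s Y ∨ M.force H .E s Y
  | .choice G H, .A => fun s Y => M.force G .A s Y ∧ M.force H .A s Y
  | .seq G H, i => fun s Y => ∃ Z : Set S, M.force G i s Z ∧ ∀ z ∈ Z, M.force H i z Y
  | .dual G, i => M.force G i.other

/-- Determined models. -/
def Model.Determined {S : Type u} (M : Model S) : Prop :=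
  ∀ g s (Y : Set S), M.ρ .A g s Y ↔ ¬ M.ρ .E g s Yᶜ

/-- The identity `G = H` is valid in the model `M`. -/
def Model.Satisfies {S : Type u} (M : Model S) (G H : Game) : Prop :=
  M.force G .E = M.force H .E ∧ M.force G .A = M.force H .A

/-- The identity `G = H` is valid over all models. -/
def ValidAll (G H : Game) : Prop := ∀ (S : Type u) (M : Model S), M.Satisfies G H

/-- The identity `G = H` is valid over all determined models. -/
def ValidDetermined (G H : Game) : Prop :=
  ∀ (S : Type u) (M : Model S), M.Determined → M.Satisfies G H

section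
variable {S : Type u} (M : Model S)

/-- Sets of old states in the extended state space. -/
def old (Y : Set S) : Set (Option S) := {x | ∃ y ∈ Y, x = some y}

/-- The old states in a set of states. -/
def tr (Z : Set (Option S)) : Set S := {s | some s ∈ Z}

/-- The forcing relation of `E` in the determined extension. -/
def fE (g : ℕ) : Option S → Set (Option S) → Prop
  | none, Z => none ∈ Z
  | some s, Z => (none ∉ Z ∧ M.ρ .E g s (tr Z)) ∨ (none ∈ Z ∧ ¬ M.ρ .A g s (tr Z)ᶜ)

theorem tr_compl (Z : Set (Option S)) : tr Zᶜ = (tr Z)ᶜ := rfl

theorem fE_mono (g : ℕ) (s : Option S) (X Y : Set (Option S)) (h : X ⊆ Y) (hX : fE M g s X) :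
    fE M g s Y := by
  cases s with
  | none => exact h hX
  | some s =>
    have htr : tr X ⊆ tr Y := fun x hx => h hx
    rcases hX with ⟨h1, h2⟩ | ⟨h1, h2⟩
    · by_cases hY : none ∈ Y
      · right
        refine ⟨hY, fun h3 => ?_⟩
        obtain ⟨x, hx1, hx2⟩ := M.consistent g s _ _ h2 h3
        exact hx2 (htr hx1)
      · exact Or.inl ⟨hY, M.mono _ _ _ _ _ htr h2⟩
    · exact Or.inr ⟨h h1, fun h3 => h2 (M.mono _ _ _ _ _ (Set.compl_subset_compl.2 htr) h3)⟩

/-- The determined extension. -/
def ext : Model (Option S) where
  ρ i g s Z := match i with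
    | .E => fE M g s Z
    | .A => ¬ fE M g s Zᶜ
  mono i g s X Y h := match i with
    | .E => fE_mono M g s X Y h
    | .A => fun h1 h2 => h1 (fE_mono M g s _ _ (Set.compl_subset_compl.2 h) h2)
  consistent g s Y Z hY hZ := by
    by_contra hcon
    refine hZ (fE_mono M g s _ _ ?_ hY)
    intro x hx hx'
    exact hcon ⟨x, hx, hx'⟩

theorem ext_determined : (ext M).Determined := fun _ _ _ => Iff.rfl

theorem none_old (Y : Set S) : none ∉ old Y := by
  rintro ⟨y, _, h⟩
  cases h

theorem tr_old (Y : Set S) : tr (old Y) = Y := by
  ext s
  constructor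
  · rintro ⟨y, hy, h⟩
    cases h
    exact hy
  · intro h
    exact ⟨s, h, rfl⟩

theorem force_none (G : Game) (i : Player) (Z : Set (Option S)) :
    (ext M).force G i none Z ↔ none ∈ Z := by
  induction G generalizing i Z with
  | var g =>
    cases i with
    | E => exact Iff.rfl
    | A =>
      change ¬ (none ∈ Zᶜ) ↔ none ∈ Z
      simp
  | idle => exact Iff.rfl
  | choice G H ih1 ih2 =>
    cases i with
    | E => simp only [Model.force, ih1, ih2, or_self]
    | A => simp only [Model.force, ih1, ih2, and_self]
  | seq G H ih1 ih2 =>
    simp only [Model.force, ih1]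
    constructor
    · rintro ⟨Z', h1, h2⟩
      exact (ih2 i Z).1 (h2 none h1)
    · intro h
      refine ⟨{none}, rfl, ?_⟩
      rintro _ rfl
      exact (ih2 i Z).2 h
  | dual G ih => exact ih i.other Z

theorem force_old (G : Game) (i : Player) (s : S) (Y : Set S) :
    (ext M).force G i (some s) (old Y) ↔ M.force G i s Y := by
  induction G generalizing i s Y with
  | var g =>
    cases i with
    | E =>
      change (none ∉ old Y ∧ M.ρ .E g s (tr (old Y))) ∨ (none ∈ old Y ∧ _) ↔ M.ρ .E g s Y
      rw [tr_old]
      have := none_old Y
      tauto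
    | A =>
      change ¬ ((none ∉ (old Y)ᶜ ∧ _) ∨ (none ∈ (old Y)ᶜ ∧ ¬ M.ρ .A g s (tr (old Y)ᶜ)ᶜ)) ↔
        M.ρ .A g s Y
      rw [tr_compl, tr_old, compl_compl]
      have h1 : none ∈ (old Y)ᶜ := none_old Y
      tauto
  | idle =>
    change some s ∈ old Y ↔ s ∈ Y
    constructor
    · rintro ⟨y, hy, h⟩
      cases h
      exact hy
    · intro h
      exact ⟨s, h, rfl⟩
  | choice G H ih1 ih2 =>
    cases i with
    | E => simp only [Model.force, ih1, ih2]
    | A => simp only [Model.force, ih1, ih2]
  | seq G H ih1 ih2 =>
    simp only [Model.force]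
    constructor
    · rintro ⟨Z, h1, h2⟩
      have hn : none ∉ Z := by
        intro hn
        exact none_old Y ((force_none M H i (old Y)).1 (h2 none hn))
      have hZ : Z = old (tr Z) := by
        ext x
        cases x with
        | none => exact ⟨fun h => absurd h hn, fun h => absurd h (none_old _)⟩
        | some x =>
          constructor
          · intro h; exact ⟨x, h, rfl⟩
          · rintro ⟨y, hy, h⟩
            cases h
            exact hy
      refine ⟨tr Z, (ih1 i s (tr Z)).1 (by rw [← hZ]; exact h1), ?_⟩
      intro z hz
      exact (ih2 i z Y).1 (h2 (some z) hz)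
    · rintro ⟨Z, h1, h2⟩
      refine ⟨old Z, (ih1 i s Z).2 h1, ?_⟩
      rintro _ ⟨z, hz, rfl⟩
      exact (ih2 i z Y).2 (h2 z hz)
  | dual G ih => exact ih i.other s Y

end

/-- The identities between game expressions valid over all determined models are exactly those
valid over all models. -/
theorem result : ∀ G H : Game, ValidDetermined.{u} G H ↔ ValidAll.{u} G H := by
  intro G H
  constructor
  · intro h S M
    obtain ⟨h1, h2⟩ := h (Option S) (ext M) (ext_determined M)
    constructor
    · funext s Y
      rw [← force_old M G, ← force_old M H, h1]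
    · funext s Y
      rw [← force_old M G, ← force_old M H, h2]
  · intro h S M _
    exact h S M

end Pool.Agent.Results.MP_dfaa7a_lc.DeterminedIdentities
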